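import Pool.Agent.L7h31.KN.Stm

/-! Project KN, part SEP. -/

namespace Pool.Agent.L7h96.KN
open Pool.Agent.L7h31.KN
open scoped RealInnerProductSpace

theorem s_SEP : S_SEP := by
  intro d P Q hP hQ hPi hQi hd
  obtain ⟨f, u, h1, h2⟩ := geometric_hahn_banach_open_open hP.interior isOpen_interior hQ.interior
    isOpen_interior hd
  have hc : ∀ x : E d, ⟪(InnerProductSpace.toDual ℝ (E d)).symm f, x⟫ = f x := fun x =>
    InnerProductSpace.toDual_symm_apply
  refine ⟨(InnerProductSpace.toDual ℝ (E d)).symm f, u, ?_, ?_, ?_⟩
  · intro h0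
    obtain ⟨p, hp⟩ := hPi
    obtain ⟨q, hq⟩ := hQi
    have h3 := h1 p hp
    have h4 := h2 q hq
    rw [← hc p, h0, inner_zero_left] at h3
    rw [← hc q, h0, inner_zero_left] at h4
    exact lt_asymm h3 h4
  · intro x hx
    rw [hc]
    have h3 : x ∈ closure (interior P) := by
      rw [hP.closure_interior_eq_closure_of_nonempty_interior hPi]
      exact subset_closure hx
    have h4 : closure (interior P) ⊆ {x | f x ≤ u} :=
      closure_minimal (fun y hy => (h1 y hy).le) (isClosed_le f.continuous continuous_const)
    exact h4 h3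
  · intro x hx
    rw [hc]
    have h3 : x ∈ closure (interior Q) := by
      rw [hQ.closure_interior_eq_closure_of_nonempty_interior hQi]
      exact subset_closure hx
    have h4 : closure (interior Q) ⊆ {x | u ≤ f x} :=
      closure_minimal (fun y hy => (h2 y hy).le) (isClosed_le continuous_const f.continuous)
    exact h4 h3

end Pool.Agent.L7h96.KN
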